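import Mathlib

/-!
Planar pairings of the strands `0, ..., m-1` and the connections of their faces.

The gap `g` (`0 ≤ g ≤ m`) lies between the strands `g-1` and `g`.  Two gaps `g ≤ h` are in the same
face of the pairing `f` iff the set `[g, h)` of strands is closed under `f`.  The Temperley-Lieb
generator at the strands `a, a+1` isolates the gap `a+1` if the gaps of this parity are observed, and
joins the faces of the gaps `a` and `a+2` for the other parity.
-/

set_option autoImplicit false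

namespace H81Rect
open Finset

/-- planar pairings of `{0, ..., m-1}` -/
structure PP (m : ℕ) (f : ℕ → ℕ) : Prop where
  lt : ∀ s, s < m → f s < m
  inv : ∀ s, s < m → f (f s) = s
  ne : ∀ s, s < m → f s ≠ s
  nc : ∀ s t, s < m → t < m → s < t → t < f s → f s < f t → False

/-- the generator at the strands `a`, `a+1` -/
def EE (a : ℕ) (f : ℕ → ℕ) : ℕ → ℕ := fun s =>
  if s = a then a + 1 else if s = a + 1 then a else if s = f a then f (a + 1)
    else if s = f (a + 1) then f a else f s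

lemma EE_a (a : ℕ) (f : ℕ → ℕ) : EE a f a = a + 1 := by simp [EE]

lemma EE_a1 (a : ℕ) (f : ℕ → ℕ) : EE a f (a + 1) = a := by
  unfold EE
  rw [if_neg (by omega), if_pos rfl]

/-- trivial action on an existing small arc -/
lemma EE_self {m : ℕ} {f : ℕ → ℕ} (hf : PP m f) {a : ℕ} (ha : a + 1 < m) (h : f a = a + 1) : EE a f = f := by
  have h1 : f (a + 1) = a := by
    rw [← h]
    exact hf.inv a (by omega)
  funext s
  unfold EE
  split_ifs with h2 h3 h4 h5
  · rw [h2, h]
  · rw [h3, h1]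
  · omega
  · omega
  · rfl

lemma EE_p {m : ℕ} {f : ℕ → ℕ} (hf : PP m f) {a : ℕ} (ha : a + 1 < m) (h : f a ≠ a + 1) :
    EE a f (f a) = f (a + 1) := by
  have := hf.ne a (by omega)
  unfold EE
  rw [if_neg this, if_neg h, if_pos rfl]

lemma EE_q {m : ℕ} {f : ℕ → ℕ} (hf : PP m f) {a : ℕ} (ha : a + 1 < m) (h : f a ≠ a + 1) :
    EE a f (f (a + 1)) = f a := by
  have h1 := hf.ne (a + 1) ha
  have h2 : f (a + 1) ≠ a := by
    intro h2
    have := hf.inv (a + 1) ha
    rw [h2] at this
    exact h this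
  have h3 : f (a + 1) ≠ f a := by
    intro h3
    have h4 := hf.inv (a + 1) ha
    rw [h3, hf.inv a (by omega)] at h4
    omega
  unfold EE
  rw [if_neg h2, if_neg h1, if_neg h3, if_pos rfl]

lemma EE_other {f : ℕ → ℕ} {a s : ℕ} (h1 : s ≠ a) (h2 : s ≠ a + 1) (h3 : s ≠ f a) (h4 : s ≠ f (a + 1)) :
    EE a f s = f s := by
  unfold EE
  rw [if_neg h1, if_neg h2, if_neg h3, if_neg h4]

/-- positions of the partners -/
lemma PP.pos {m : ℕ} {f : ℕ → ℕ} (hf : PP m f) {a : ℕ} (ha : a + 1 < m) (h : f a ≠ a + 1) :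
    (f a < a ∧ a + 1 < f (a + 1)) ∨ (a + 1 < f (a + 1) ∧ f (a + 1) < f a) ∨
      (f (a + 1) < f a ∧ f a < a) := by
  have i1 := hf.inv a (by omega)
  have i2 := hf.inv (a + 1) ha
  have n1 := hf.ne a (by omega)
  have n2 := hf.ne (a + 1) ha
  have l1 := hf.lt a (by omega)
  have l2 := hf.lt (a + 1) ha
  have h2 : f (a + 1) ≠ a := by
    intro h2
    rw [h2] at i2
    exact h i2
  have h3 : f (a + 1) ≠ f a := by
    intro h3
    rw [h3, i1] at i2
    omega
  have c1 := hf.nc a (a + 1) (by omega) ha (by omega)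
  have c2 := hf.nc (f (a + 1)) a l2 (by omega)
  rw [i2] at c2
  have c3 := hf.nc (f (a + 1)) (f a) l2 l1
  rw [i2, i1] at c3
  by_cases p1 : f a < a
  · by_cases p2 : a + 1 < f (a + 1)
    · exact Or.inl ⟨p1, p2⟩
    · right; right
      refine ⟨?_, p1⟩
      by_contra hcon
      have c4 := hf.nc (f a) (f (a + 1)) l1 l2 (by omega)
      rw [i1, i2] at c4
      exact c4 (by omega) (by omega)
  · have p1' : a + 1 < f a := by omega
    right; left
    by_cases p2 : a + 1 < f (a + 1)
    · refine ⟨p2, ?_⟩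
      by_contra hcon
      exact c1 (by omega) (by omega)
    · exact (c2 (by omega) (by omega) (by omega)).elim

theorem PP.step {m : ℕ} {f : ℕ → ℕ} (hf : PP m f) {a : ℕ} (ha : a + 1 < m) : PP m (EE a f) := by
  by_cases h : f a = a + 1
  · rw [EE_self hf ha h]
    exact hf
  have i1 := hf.inv a (by omega)
  have i2 := hf.inv (a + 1) ha
  have n1 := hf.ne a (by omega)
  have n2 := hf.ne (a + 1) ha
  have l1 := hf.lt a (by omega)
  have l2 := hf.lt (a + 1) ha
  have hpos := hf.pos ha h
  have h2 : f (a + 1) ≠ a := by omega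
  have h3 : f (a + 1) ≠ f a := by omega
  have ea := EE_a a f
  have ea1 := EE_a1 a f
  have ep := EE_p hf ha h
  have eq := EE_q hf ha h
  -- partners of the other strands are other strands
  have oth : ∀ s, s < m → s ≠ a → s ≠ a + 1 → s ≠ f a → s ≠ f (a + 1) →
      f s ≠ a ∧ f s ≠ a + 1 ∧ f s ≠ f a ∧ f s ≠ f (a + 1) := by
    intro s hs k1 k2 k3 k4
    have is := hf.inv s hs
    refine ⟨fun e => ?_, fun e => ?_, fun e => ?_, fun e => ?_⟩
    · rw [e] at is; exact k3 is.symm
    · rw [e] at is; exact k4 is.symm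
    · rw [e, i1] at is; exact k1 is.symm
    · rw [e, i2] at is; exact k2 is.symm
  constructor
  · intro s hs
    by_cases k1 : s = a
    · rw [k1, ea]; exact ha
    by_cases k2 : s = a + 1
    · rw [k2, ea1]; omega
    by_cases k3 : s = f a
    · rw [k3, ep]; exact l2
    by_cases k4 : s = f (a + 1)
    · rw [k4, eq]; exact l1
    rw [EE_other k1 k2 k3 k4]
    exact hf.lt s hs
  · intro s hs
    by_cases k1 : s = a
    · rw [k1, ea, ea1]
    by_cases k2 : s = a + 1
    · rw [k2, ea1, ea]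
    by_cases k3 : s = f a
    · rw [k3, ep, eq]
    by_cases k4 : s = f (a + 1)
    · rw [k4, eq, ep]
    obtain ⟨o1, o2, o3, o4⟩ := oth s hs k1 k2 k3 k4
    rw [EE_other k1 k2 k3 k4, EE_other o1 o2 o3 o4]
    exact hf.inv s hs
  · intro s hs
    by_cases k1 : s = a
    · rw [k1, ea]; omega
    by_cases k2 : s = a + 1
    · rw [k2, ea1]; omega
    by_cases k3 : s = f a
    · rw [k3, ep]; exact h3
    by_cases k4 : s = f (a + 1)
    · rw [k4, eq]; exact h3.symm
    rw [EE_other k1 k2 k3 k4]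
    exact hf.ne s hs
  · intro s t hs ht hst h4 h5
    by_cases s1 : s = a
    · rw [s1, ea] at h4; omega
    by_cases s2 : s = a + 1
    · rw [s2, ea1] at h4; omega
    by_cases t1 : t = a
    · rw [t1, ea] at h5; omega
    by_cases t2 : t = a + 1
    · rw [t2, ea1] at h5; omega
    by_cases s3 : s = f a
    · by_cases t3 : t = f a
      · omega
      by_cases t4 : t = f (a + 1)
      · rw [s3, ep] at h4; omega
      rw [s3, ep] at h4 h5
      rw [EE_other t1 t2 t3 t4] at h5
      subst s3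
      have c1 := hf.nc (f a) t l1 ht hst
      rw [i1] at c1
      have c2 := hf.nc (a + 1) t ha ht
      rcases hpos with hp | hp | hp
      · by_cases ta : t < a
        · exact c1 ta (by omega)
        · exact c2 (by omega) (by omega) (by omega)
      · omega
      · omega
    by_cases s4 : s = f (a + 1)
    · by_cases t3 : t = f a
      · rw [s4, eq] at h4; omega
      by_cases t4 : t = f (a + 1)
      · omega
      rw [s4, eq] at h4 h5
      rw [EE_other t1 t2 t3 t4] at h5
      subst s4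
      obtain ⟨o1, o2, o3, o4⟩ := oth t ht t1 t2 t3 t4
      have c1 := hf.nc a t (by omega) ht
      have c2 := hf.nc (f (a + 1)) t l2 ht hst
      rw [i2] at c2
      have c3 := hf.nc t (f a) ht l1
      rw [i1] at c3
      rcases hpos with hp | hp | hp
      · omega
      · exact c1 (by omega) (by omega) (by omega)
      · by_cases ta : a + 1 < f t
        · exact c2 (by omega) (by omega)
        · exact c3 (by omega) (by omega) (by omega)
    by_cases t3 : t = f a
    · rw [EE_other s1 s2 s3 s4] at h4 h5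
      rw [t3, ep] at h5
      subst t3
      obtain ⟨o1, o2, o3, o4⟩ := oth s hs s1 s2 s3 s4
      have c1 := hf.nc s (f a) hs l1 hst
      rw [i1] at c1
      have c2 := hf.nc s (a + 1) hs ha
      rcases hpos with hp | hp | hp
      · by_cases ta : f s < a
        · exact c1 (by omega) (by omega)
        · exact c2 (by omega) (by omega) (by omega)
      · omega
      · omega
    by_cases t4 : t = f (a + 1)
    · rw [EE_other s1 s2 s3 s4] at h4 h5
      rw [t4, eq] at h5
      subst t4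
      obtain ⟨o1, o2, o3, o4⟩ := oth s hs s1 s2 s3 s4
      have c1 := hf.nc s a hs (by omega)
      have c2 := hf.nc (a + 1) s ha hs
      have c3 := hf.nc s (f (a + 1)) hs l2 hst
      rw [i2] at c3
      rcases hpos with hp | hp | hp
      · omega
      · by_cases sa : s < a
        · exact c1 (by omega) (by omega) (by omega)
        · exact c2 (by omega) (by omega) (by omega)
      · exact c3 (by omega) (by omega)
    rw [EE_other s1 s2 s3 s4] at h4 h5
    rw [EE_other t1 t2 t3 t4] at h5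
    exact hf.nc s t hs ht hst h4 h5

/-! ### closed intervals -/

/-- `[g, h)` is closed under `f` -/
def Cl (f : ℕ → ℕ) (g h : ℕ) : Prop := ∀ s, g ≤ s → s < h → g ≤ f s ∧ f s < h

lemma cl_refl (f : ℕ → ℕ) (g : ℕ) : Cl f g g := fun s h1 h2 => by omega

/-- closed intervals have even length -/
theorem PP.even {m : ℕ} {f : ℕ → ℕ} (hf : PP m f) {g h : ℕ} (hh : h ≤ m) (hc : Cl f g h) :
    Even (h - g) := by
  have h1 : ∑ _s ∈ Ico g h, (1 : ZMod 2) = 0 := by
    refine sum_involution (fun s _ => f s) (fun s _ => by decide) (fun s hs _ => ?_) (fun s hs => ?_)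
      (fun s hs => ?_)
    · rw [mem_Ico] at hs
      exact hf.ne s (by omega)
    · rw [mem_Ico] at hs ⊢
      exact hc s hs.1 hs.2
    · rw [mem_Ico] at hs
      exact hf.inv s (by omega)
  rw [sum_const, Nat.card_Ico, nsmul_eq_mul, mul_one] at h1
  exact (ZMod.natCast_eq_zero_iff_even).1 h1

/-- the inside of an arc is closed -/
theorem PP.arc {m : ℕ} {f : ℕ → ℕ} (hf : PP m f) {s : ℕ} (hs : s < m) (h : s < f s) : Cl f (s + 1) (f s) := by
  intro t h1 h2
  have l := hf.lt s hs
  have c1 := hf.nc s t hs (by omega) (by omega) h2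
  have c2 := hf.nc (f t) s (hf.lt t (by omega)) hs
  rw [hf.inv t (by omega)] at c2
  have i1 := hf.inv s hs
  have i2 := hf.inv t (by omega)
  have n1 : f t ≠ s := fun e => by
    rw [e] at i2
    omega
  have n2 : f t ≠ f s := fun e => by
    rw [e, i1] at i2
    omega
  constructor
  · by_contra hcon
    exact c2 (by omega) (by omega) (by omega)
  · by_contra hcon
    exact c1 (by omega)

/-- closed intervals, symmetric form -/
lemma PP.cl_iff {m : ℕ} {f : ℕ → ℕ} (hf : PP m f) {g h : ℕ} (hh : h ≤ m) :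
    Cl f g h ↔ ∀ s, s < m → ((g ≤ s ∧ s < h) ↔ (g ≤ f s ∧ f s < h)) := by
  constructor
  · intro hc s hs
    constructor
    · exact fun h1 => hc s h1.1 h1.2
    · intro h1
      have := hc (f s) h1.1 h1.2
      rwa [hf.inv s hs] at this
  · intro h1 s h2 h3
    exact (h1 s (by omega)).1 ⟨h2, h3⟩

/-- the gaps `g` and `h` are in the same face -/
def Jn (f : ℕ → ℕ) (g h : ℕ) : Prop := (g ≤ h ∧ Cl f g h) ∨ (h ≤ g ∧ Cl f h g)

lemma Jn.symm {f : ℕ → ℕ} {g h : ℕ} (H : Jn f g h) : Jn f h g := H.elim Or.inr Or.inl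

lemma jn_refl (f : ℕ → ℕ) (g : ℕ) : Jn f g g := Or.inl ⟨le_rfl, cl_refl f g⟩

lemma jn_comm {f : ℕ → ℕ} {g h : ℕ} : Jn f g h ↔ Jn f h g := ⟨Jn.symm, Jn.symm⟩

lemma jn_of_le {f : ℕ → ℕ} {g h : ℕ} (H : g ≤ h) : Jn f g h ↔ Cl f g h := by
  constructor
  · rintro (h1 | h1)
    · exact h1.2
    · have : g = h := le_antisymm H h1.1
      rw [this]
      exact cl_refl f h
  · exact fun h1 => Or.inl ⟨H, h1⟩

/-- membership form of `Jn` -/
lemma PP.jn_iff {m : ℕ} {f : ℕ → ℕ} (hf : PP m f) {g h : ℕ} (hg : g ≤ m) (hh : h ≤ m) :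
    Jn f g h ↔ ∀ s, s < m → (((g ≤ s ∧ s < h) ∨ (h ≤ s ∧ s < g)) ↔
      ((g ≤ f s ∧ f s < h) ∨ (h ≤ f s ∧ f s < g))) := by
  rcases le_total g h with hgh | hgh
  · rw [jn_of_le hgh, hf.cl_iff hh]
    constructor
    · intro H s hs
      have := H s hs
      omega
    · intro H s hs
      have := H s hs
      omega
  · rw [jn_comm, jn_of_le hgh, hf.cl_iff hg]
    constructor
    · intro H s hs
      have := H s hs
      omega
    · intro H s hs
      have := H s hs
      omega

theorem PP.jn_trans {m : ℕ} {f : ℕ → ℕ} (hf : PP m f) {g h k : ℕ} (hg : g ≤ m) (hh : h ≤ m) (hk : k ≤ m)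
    (h1 : Jn f g h) (h2 : Jn f h k) : Jn f g k := by
  rw [hf.jn_iff hg hh] at h1
  rw [hf.jn_iff hh hk] at h2
  rw [hf.jn_iff hg hk]
  intro s hs
  have a1 := h1 s hs
  have a2 := h2 s hs
  omega

/-! ### the faces after the generator -/

lemma PP.jn_EE {m : ℕ} {f : ℕ → ℕ} (hf : PP m f) {a : ℕ} (ha : a + 1 < m) {u v : ℕ} (hu : u ≤ m)
    (hv : v ≤ m) (hua : u ≠ a + 1) (hva : v ≠ a + 1) (H : Jn f u v) : Jn (EE a f) u v := by
  by_cases h : f a = a + 1
  · rwa [EE_self hf ha h]
  have i1 := hf.inv a (by omega)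
  have i2 := hf.inv (a + 1) ha
  rw [hf.jn_iff hu hv] at H
  rw [(hf.step ha).jn_iff hu hv]
  have h1 := H a (by omega)
  have h2 := H (a + 1) ha
  intro s hs
  by_cases k1 : s = a
  · rw [k1, EE_a]; omega
  by_cases k2 : s = a + 1
  · rw [k2, EE_a1]; omega
  by_cases k3 : s = f a
  · rw [k3, EE_p hf ha h]; omega
  by_cases k4 : s = f (a + 1)
  · rw [k4, EE_q hf ha h]; omega
  rw [EE_other k1 k2 k3 k4]
  exact H s hs

lemma jn_EE_new (a : ℕ) (f : ℕ → ℕ) : Jn (EE a f) a (a + 2) := by
  rw [jn_of_le (by omega)]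
  intro s h1 h2
  rcases (show s = a ∨ s = a + 1 by omega) with h | h
  · rw [h, EE_a]; omega
  · rw [h, EE_a1]; omega

/-- closed sets of the other strands -/
lemma PP.oth {m : ℕ} {f : ℕ → ℕ} (hf : PP m f) {a : ℕ} (ha : a + 1 < m) {s : ℕ} (hs : s < m)
    (k1 : s ≠ a) (k2 : s ≠ a + 1) (k3 : s ≠ f a) (k4 : s ≠ f (a + 1)) :
    f s ≠ a ∧ f s ≠ a + 1 ∧ f s ≠ f a ∧ f s ≠ f (a + 1) := by
  have i1 := hf.inv a (by omega)
  have i2 := hf.inv (a + 1) ha
  have is := hf.inv s hs
  refine ⟨fun e => ?_, fun e => ?_, fun e => ?_, fun e => ?_⟩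
  · rw [e] at is; exact k3 is.symm
  · rw [e] at is; exact k4 is.symm
  · rw [e, i1] at is; exact k1 is.symm
  · rw [e, i2] at is; exact k2 is.symm

lemma PP.clA {m : ℕ} {f : ℕ → ℕ} (hf : PP m f) {a : ℕ} (ha : a + 1 < m) (h : f a ≠ a + 1) {g k : ℕ}
    (hg : g ≤ a) (hk : a + 2 ≤ k) (hkm : k ≤ m) (H : Cl (EE a f) g k) (hp : ¬ (g ≤ f a ∧ f a < k)) :
    Cl f g a ∧ Cl f (a + 2) k := by
  have i1 := hf.inv a (by omega)
  have i2 := hf.inv (a + 1) ha
  have l1 := hf.lt a (by omega)
  have hq : ¬ (g ≤ f (a + 1) ∧ f (a + 1) < k) := by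
    intro hq
    have := H _ hq.1 hq.2
    rw [EE_q hf ha h] at this
    exact hp this
  have key : ∀ s, g ≤ s → s < k → s ≠ a → s ≠ a + 1 →
      f s ≠ a ∧ f s ≠ a + 1 ∧ g ≤ f s ∧ f s < k := by
    intro s h1 h2 h3 h4
    have k3 : s ≠ f a := fun e => hp (e ▸ ⟨h1, h2⟩)
    have k4 : s ≠ f (a + 1) := fun e => hq (e ▸ ⟨h1, h2⟩)
    have := hf.oth ha (show s < m by omega) h3 h4 k3 k4
    have h5 := H s h1 h2
    rw [EE_other h3 h4 k3 k4] at h5
    exact ⟨this.1, this.2.1, h5⟩
  have part1 : Cl f g a := by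
    intro s h1 h2
    obtain ⟨o1, o2, o3, o4⟩ := key s h1 (by omega) (by omega) (by omega)
    refine ⟨o3, ?_⟩
    by_contra hcon
    have c1 := hf.nc s a (by omega) (by omega) h2 (by omega)
    have c2 := hf.nc (f a) s l1 (by omega)
    rw [i1] at c2
    by_cases hps : f a < s
    · exact c2 hps (by omega) (by omega)
    · apply hp
      refine ⟨by omega, ?_⟩
      by_contra hcon2
      exact c1 (by omega)
  refine ⟨part1, ?_⟩
  intro s h1 h2
  obtain ⟨o1, o2, o3, o4⟩ := key s (by omega) h2 (by omega) (by omega)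
  refine ⟨?_, o4⟩
  by_contra hcon
  have := part1 (f s) o3 (by omega)
  rw [hf.inv s (by omega)] at this
  omega

lemma PP.clB {m : ℕ} {f : ℕ → ℕ} (hf : PP m f) {a : ℕ} (ha : a + 1 < m) (h : f a ≠ a + 1) {g k : ℕ}
    (hg : a + 2 ≤ g) (hkm : k ≤ m) (H : Cl (EE a f) g k) (hp : g ≤ f a ∧ f a < k) :
    Cl f (a + 2) g ∧ Cl f a k := by
  have i1 := hf.inv a (by omega)
  have i2 := hf.inv (a + 1) ha
  have l1 := hf.lt a (by omega)
  have l2 := hf.lt (a + 1) ha
  have hq := H _ hp.1 hp.2
  rw [EE_p hf ha h] at hq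
  have hpos : a + 1 < f (a + 1) ∧ f (a + 1) < f a := by
    have := hf.pos ha h
    omega
  have part1 : Cl f (a + 2) g := by
    intro s h1 h2
    have k3 : s ≠ f a := by omega
    have k4 : s ≠ f (a + 1) := by omega
    obtain ⟨o1, o2, o3, o4⟩ := hf.oth ha (show s < m by omega) (by omega) (by omega) k3 k4
    have c1 := hf.nc (a + 1) s ha (by omega) (by omega) (by omega)
    have c2 := hf.nc (f s) (a + 1) (hf.lt s (by omega)) ha
    rw [hf.inv s (by omega)] at c2
    have h3 : a + 2 ≤ f s := by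
      by_contra hcon
      exact c2 (by omega) (by omega) (by omega)
    refine ⟨h3, ?_⟩
    by_contra hcon
    have h5 : f s < f (a + 1) := by
      by_contra hcon2
      exact c1 (by omega)
    have h4 := H (f s) (by omega) (by omega)
    rw [EE_other (by omega) (by omega) o3 o4, hf.inv s (by omega)] at h4
    omega
  refine ⟨part1, ?_⟩
  intro s h1 h2
  by_cases k1 : s = a
  · rw [k1]; omega
  by_cases k2 : s = a + 1
  · rw [k2]; omega
  by_cases k3 : s = f a
  · rw [k3, i1]; omega
  by_cases k4 : s = f (a + 1)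
  · rw [k4, i2]; omega
  by_cases k5 : s < g
  · have := part1 s (by omega) k5
    omega
  · have := H s (by omega) h2
    rw [EE_other k1 k2 k3 k4] at this
    omega

lemma PP.clC {m : ℕ} {f : ℕ → ℕ} (hf : PP m f) {a : ℕ} (ha : a + 1 < m) (h : f a ≠ a + 1) {g k : ℕ}
    (hk : k ≤ a) (H : Cl (EE a f) g k) (hp : g ≤ f a ∧ f a < k) :
    Cl f k a ∧ Cl f g (a + 2) := by
  have i1 := hf.inv a (by omega)
  have i2 := hf.inv (a + 1) ha
  have l1 := hf.lt a (by omega)
  have l2 := hf.lt (a + 1) ha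
  have hq := H _ hp.1 hp.2
  rw [EE_p hf ha h] at hq
  have hpos : f (a + 1) < f a ∧ f a < a := by
    have := hf.pos ha h
    omega
  have part1 : Cl f k a := by
    intro s h1 h2
    have k3 : s ≠ f a := by omega
    have k4 : s ≠ f (a + 1) := by omega
    obtain ⟨o1, o2, o3, o4⟩ := hf.oth ha (show s < m by omega) (by omega) (by omega) k3 k4
    have c1 := hf.nc (f a) s l1 (by omega)
    rw [i1] at c1
    have c2 := hf.nc (f s) (f a) (hf.lt s (by omega)) l1
    rw [hf.inv s (by omega), i1] at c2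
    have h3 : f s < a := by
      by_contra hcon
      exact c1 (by omega) (by omega) (by omega)
    refine ⟨?_, h3⟩
    by_contra hcon
    have h5 : f a < f s := by
      by_contra hcon2
      exact c2 (by omega) (by omega) (by omega)
    have h4 := H (f s) (by omega) (by omega)
    rw [EE_other (by omega) (by omega) o3 o4, hf.inv s (by omega)] at h4
    omega
  refine ⟨part1, ?_⟩
  intro s h1 h2
  by_cases k1 : s = a
  · rw [k1]; omega
  by_cases k2 : s = a + 1
  · rw [k2]; omega
  by_cases k3 : s = f a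
  · rw [k3, i1]; omega
  by_cases k4 : s = f (a + 1)
  · rw [k4, i2]; omega
  by_cases k5 : k ≤ s
  · have := part1 s k5 (by omega)
    omega
  · have := H s (by omega) (by omega)
    rw [EE_other k1 k2 k3 k4] at this
    omega

/-- closed under the new pairing, all partners on one side: closed under the old one -/
lemma PP.clD {m : ℕ} {f : ℕ → ℕ} (hf : PP m f) {a : ℕ} (ha : a + 1 < m) (h : f a ≠ a + 1) {g k : ℕ}
    (hkm : k ≤ m) (H : Cl (EE a f) g k)
    (h1 : (g ≤ a ∧ a < k) ↔ (g ≤ f a ∧ f a < k)) : Cl f g k := by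
  have i1 := hf.inv a (by omega)
  have i2 := hf.inv (a + 1) ha
  have l1 := hf.lt a (by omega)
  have l2 := hf.lt (a + 1) ha
  have H' := ((hf.step ha).cl_iff hkm).1 H
  rw [hf.cl_iff hkm]
  have e1 := H' a (by omega)
  have e2 := H' (f a) l1
  rw [EE_a] at e1
  rw [EE_p hf ha h] at e2
  intro s hs
  by_cases k1 : s = a
  · rw [k1]; omega
  by_cases k2 : s = a + 1
  · rw [k2]; omega
  by_cases k3 : s = f a
  · rw [k3, i1]; omega
  by_cases k4 : s = f (a + 1)
  · rw [k4, i2]; omega
  have := H' s hs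
  rwa [EE_other k1 k2 k3 k4] at this

/-- **the isolating generator**: `a` odd, even gaps -/
theorem PP.isolate {m : ℕ} {f : ℕ → ℕ} (hf : PP m f) {a : ℕ} (ha : a + 1 < m) (hodd : a % 2 = 1)
    {u v : ℕ} (hu : u ≤ m) (hv : v ≤ m) (hu2 : u % 2 = 0) (hv2 : v % 2 = 0) :
    Jn (EE a f) u v ↔ u = v ∨ (u ≠ a + 1 ∧ v ≠ a + 1 ∧ Jn f u v) := by
  constructor
  · intro H
    by_cases huv : u = v
    · exact Or.inl huv
    right
    -- it suffices to treat `u < v`
    have key : ∀ g k : ℕ, g < k → k ≤ m → g % 2 = 0 → k % 2 = 0 → Cl (EE a f) g k →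
        g ≠ a + 1 ∧ k ≠ a + 1 ∧ Cl f g k := by
      intro g k hgk hk hg2 hk2 hc
      have h1 : g ≠ a + 1 := by
        intro e
        have := hc (a + 1) (by omega) (by omega)
        rw [EE_a1] at this
        omega
      have h2 : k ≠ a + 1 := by
        intro e
        have := hc a (by omega) (by omega)
        rw [EE_a] at this
        omega
      refine ⟨h1, h2, ?_⟩
      by_cases h : f a = a + 1
      · rwa [EE_self hf ha h] at hc
      apply hf.clD ha h hk hc
      constructor
      · intro h3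
        by_contra hcon
        have h4 := (hf.clA ha h h3.1 (by omega) hk hc hcon).1
        have h5 := hf.even (by omega) h4
        rw [Nat.even_iff] at h5
        omega
      · intro h3
        by_contra hcon
        by_cases h4 : g ≤ a
        · have h5 := (hf.clC ha h (by omega) hc h3).1
          have h6 := hf.even (by omega) h5
          rw [Nat.even_iff] at h6
          omega
        · have h5 := (hf.clB ha h (by omega) hk hc h3).1
          have h6 := hf.even (by omega) h5
          rw [Nat.even_iff] at h6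
          omega
    rcases lt_or_gt_of_ne huv with h1 | h1
    · rw [jn_of_le h1.le] at H ⊢
      exact key u v h1 hv hu2 hv2 H
    · rw [jn_comm, jn_of_le h1.le] at H
      rw [jn_comm, jn_of_le h1.le]
      obtain ⟨j1, j2, j3⟩ := key v u h1 hu hv2 hu2 H
      exact ⟨j2, j1, j3⟩
  · rintro (h | ⟨h1, h2, h3⟩)
    · rw [h]
      exact jn_refl _ _
    · exact hf.jn_EE ha hu hv h1 h2 h3

/-- **the joining generator**: `a` even, even gaps -/
theorem PP.merge {m : ℕ} {f : ℕ → ℕ} (hf : PP m f) {a : ℕ} (ha : a + 1 < m) (heven : a % 2 = 0)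
    {u v : ℕ} (hu : u ≤ m) (hv : v ≤ m) (hu2 : u % 2 = 0) (hv2 : v % 2 = 0) :
    Jn (EE a f) u v ↔ Jn f u v ∨ (Jn f u a ∧ Jn f (a + 2) v) ∨ (Jn f u (a + 2) ∧ Jn f a v) := by
  constructor
  · intro H
    by_cases h : f a = a + 1
    · rw [EE_self hf ha h] at H
      exact Or.inl H
    have key : ∀ g k : ℕ, g ≤ k → k ≤ m → g % 2 = 0 → k % 2 = 0 → Cl (EE a f) g k →
        Jn f g k ∨ (Jn f g a ∧ Jn f (a + 2) k) ∨ (Jn f g (a + 2) ∧ Jn f a k) := by
      intro g k hgk hk hg2 hk2 hc
      by_cases h1 : (g ≤ a ∧ a < k) ↔ (g ≤ f a ∧ f a < k)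
      · exact Or.inl ((jn_of_le hgk).2 (hf.clD ha h hk hc h1))
      right
      by_cases h3 : g ≤ a ∧ a < k
      · have hcon : ¬ (g ≤ f a ∧ f a < k) := fun h4 => h1 ⟨fun _ => h4, fun _ => h3⟩
        have h4 := hf.clA ha h h3.1 (by omega) hk hc hcon
        exact Or.inl ⟨(jn_of_le h3.1).2 h4.1, (jn_of_le (by omega)).2 h4.2⟩
      · have h4 : g ≤ f a ∧ f a < k := by
          by_contra hcon
          exact h1 ⟨fun h5 => (h3 h5).elim, fun h5 => (hcon h5).elim⟩
        right
        by_cases h5 : g ≤ a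
        · have h6 := hf.clC ha h (by omega) hc h4
          exact ⟨(jn_of_le (by omega)).2 h6.2, ((jn_of_le (by omega)).2 h6.1).symm⟩
        · have h6 := hf.clB ha h (by omega) hk hc h4
          exact ⟨((jn_of_le (by omega)).2 h6.1).symm, (jn_of_le (by omega)).2 h6.2⟩
    rcases le_total u v with h1 | h1
    · rw [jn_of_le h1] at H
      exact key u v h1 hv hu2 hv2 H
    · rw [jn_comm, jn_of_le h1] at H
      rcases key v u h1 hu hv2 hu2 H with j | ⟨j1, j2⟩ | ⟨j1, j2⟩
      · exact Or.inl j.symm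
      · exact Or.inr (Or.inr ⟨j2.symm, j1.symm⟩)
      · exact Or.inr (Or.inl ⟨j2.symm, j1.symm⟩)
  · have hE := hf.step ha
    rintro (h1 | ⟨h1, h2⟩ | ⟨h1, h2⟩)
    · exact hf.jn_EE ha hu hv (by omega) (by omega) h1
    · have j1 := hf.jn_EE ha hu (show a ≤ m by omega) (by omega) (by omega) h1
      have j2 := hf.jn_EE ha (show a + 2 ≤ m by omega) hv (by omega) (by omega) h2
      exact hE.jn_trans hu (by omega) hv (hE.jn_trans hu (by omega) (by omega) j1 (jn_EE_new a f)) j2
    · have j1 := hf.jn_EE ha hu (show a + 2 ≤ m by omega) (by omega) (by omega) h1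
      have j2 := hf.jn_EE ha (show a ≤ m by omega) hv (by omega) (by omega) h2
      exact hE.jn_trans hu (by omega) hv
        (hE.jn_trans hu (by omega) (by omega) j1 (jn_EE_new a f).symm) j2

end H81Rect
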