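import Pool.Agent.Rect.Perc.Build
import Pool.Agent.Helper81.Rect.Pair

/-!
The pairing dynamics and the relation dynamics of `Pool.Agent.Rect.Perc.Build`.

A pattern with two defects on `N` strands is a planar pairing of `{0, ..., N+1}`: the strand `s` has
the label `s + 1`, the labels `0` and `N + 1` are the two defects bent to the outside.  The region `j`
is the gap `j + 1`, the lower side is the gap `0`.  The pattern is dead when `0` and `N + 1` are
paired.
-/

set_option autoImplicit false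

namespace H81Rect
open Finset
open H47Perc.RC (Interp fwd bwd drow drows Rl upR dnR tlR IR jnr isr Dm)

/-- shift of the labels `≥ 1` by two -/
def sh (t : ℕ) : ℕ := if t = 0 then 0 else t + 2

/-- inverse of the shift -/
def us (t : ℕ) : ℕ := if t = 0 then 0 else t - 2

/-- a cup at the strands `0`, `1` (labels `1`, `2`) -/
def upP (f : ℕ → ℕ) : ℕ → ℕ := fun s =>
  if s = 0 then sh (f 0) else if s = 1 then 2 else if s = 2 then 1 else sh (f (s - 2))

/-- a cap at the strands `0`, `1` (labels `1`, `2`) -/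
def dnP (f : ℕ → ℕ) : ℕ → ℕ := fun s => us (EE 1 f (sh s))

/-- a tile -/
def tlP (i : ℕ) (b : Bool) (f : ℕ → ℕ) : ℕ → ℕ :=
  if i % 2 = 1 then (if b then EE (i + 1) f else f) else (if b then f else EE (i + 1) f)

/-- the interpretation by pairings -/
def IPr : Interp (ℕ → ℕ) := ⟨upP, dnP, tlP⟩

/-- the gap of a region -/
def gp : Option ℕ → ℕ
  | none => 0
  | some j => j + 1

/-- the pairing `f` on `N` strands and the relation `R` describe the same connections -/
structure Sim (N : ℕ) (f : ℕ → ℕ) (R : Rl) : Prop where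
  pp : PP (N + 2) f
  rel : ∀ x y, Dm N x → Dm N y → (R x y ↔ Jn f (gp x) (gp y))

lemma gp_even {N : ℕ} {x : Option ℕ} (hx : Dm N x) : gp x % 2 = 0 := by
  rcases x with _ | j
  · rfl
  · have := hx.1
    show (j + 1) % 2 = 0
    omega

lemma gp_le {N : ℕ} {x : Option ℕ} (hx : Dm N x) : gp x ≤ N := by
  rcases x with _ | j
  · exact Nat.zero_le _
  · have := hx.2
    show j + 1 ≤ N
    omega

lemma gp_inj {x y : Option ℕ} : gp x = gp y ↔ x = y := by
  rcases x with _ | j <;> rcases y with _ | j' <;> simp [gp]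

lemma Sim.tl {N : ℕ} {f : ℕ → ℕ} {R : Rl} (h : Sim N f R) {i : ℕ} (hi1 : 1 ≤ i) (hi2 : i + 2 ≤ N)
    (hN : N % 2 = 0) (b : Bool) : Sim N (tlP i b f) (tlR i b R) := by
  have ha : i + 1 + 1 < N + 2 := by omega
  rcases Nat.mod_two_eq_zero_or_one i with hp | hp
  · -- even column
    have hp' : ¬ (i % 2 = 1) := by omega
    unfold tlP tlR
    rw [if_neg hp', if_neg hp']
    cases b with
    | true => simpa using h
    | false =>
      simp only [Bool.false_eq_true, if_false]
      refine ⟨h.pp.step ha, fun x y hx hy => ?_⟩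
      rw [h.pp.isolate ha (by omega) (by have := gp_le hx; omega) (by have := gp_le hy; omega)
        (gp_even hx) (gp_even hy), gp_inj, ← h.rel x y hx hy]
      unfold isr
      have e : ∀ z : Option ℕ, gp z ≠ i + 1 + 1 ↔ z ≠ some (i + 1) := by
        intro z
        rw [Ne, Ne, ← gp_inj]
        rfl
      rw [e, e]
  · -- odd column
    unfold tlP tlR
    rw [if_pos hp, if_pos hp]
    cases b with
    | false => simpa using h
    | true =>
      simp only [if_true]
      refine ⟨h.pp.step ha, fun x y hx hy => ?_⟩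
      have h1 : Dm N (some i) := ⟨hp, by omega⟩
      have h2 : Dm N (some (i + 2)) := ⟨by omega, by omega⟩
      rw [h.pp.merge ha (by omega) (by have := gp_le hx; omega) (by have := gp_le hy; omega)
        (gp_even hx) (gp_even hy)]
      unfold jnr
      rw [h.rel x y hx hy, h.rel x _ hx h1, h.rel _ y h2 hy, h.rel x _ hx h2, h.rel _ y h1 hy]
      rfl

/-! ### a new cup -/

lemma sh_pos {t : ℕ} (h : t ≠ 0) : sh t = t + 2 := by
  unfold sh
  rw [if_neg h]

lemma sh_zero : sh 0 = 0 := rfl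

lemma us_sh (t : ℕ) : us (sh t) = t := by
  unfold us sh
  by_cases h : t = 0
  · rw [if_pos h, if_pos rfl, h]
  · rw [if_neg h, if_neg (by omega)]
    omega

lemma sh_us {t : ℕ} (h1 : t ≠ 1) (h2 : t ≠ 2) : sh (us t) = t := by
  unfold us sh
  by_cases h : t = 0
  · rw [if_pos h, if_pos rfl, h]
  · rw [if_neg h, if_neg (by omega)]
    omega

lemma sh_ne1 (t : ℕ) : sh t ≠ 1 := by
  unfold sh
  split_ifs <;> omega

lemma sh_ne2 (t : ℕ) : sh t ≠ 2 := by
  unfold sh
  split_ifs <;> omega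

lemma sh_lt {s t : ℕ} : sh s < sh t ↔ s < t := by
  unfold sh
  split_ifs <;> omega

lemma sh_inj {s t : ℕ} : sh s = sh t ↔ s = t := by
  constructor
  · intro h
    have h1 := us_sh s
    rw [h, us_sh] at h1
    exact h1.symm
  · intro h
    rw [h]

lemma upP_sh (f : ℕ → ℕ) (s : ℕ) : upP f (sh s) = sh (f s) := by
  unfold upP
  by_cases h : s = 0
  · rw [h, sh_zero, if_pos rfl]
  · rw [sh_pos h, if_neg (by omega), if_neg (by omega), if_neg (by omega), Nat.add_sub_cancel]

lemma upP_1 (f : ℕ → ℕ) : upP f 1 = 2 := rfl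
lemma upP_2 (f : ℕ → ℕ) : upP f 2 = 1 := rfl

lemma cases_sh (s : ℕ) : s = 1 ∨ s = 2 ∨ ∃ t, s = sh t := by
  by_cases h1 : s = 1
  · exact Or.inl h1
  by_cases h2 : s = 2
  · exact Or.inr (Or.inl h2)
  · exact Or.inr (Or.inr ⟨us s, (sh_us h1 h2).symm⟩)

lemma sh_lt_add {t m : ℕ} (hm : 0 < m) : sh t < m + 2 ↔ t < m := by
  unfold sh
  split_ifs <;> omega

theorem PP.up {m : ℕ} {f : ℕ → ℕ} (hf : PP m f) (hm : 0 < m) : PP (m + 2) (upP f) := by
  constructor
  · intro s hs
    rcases cases_sh s with rfl | rfl | ⟨t, rfl⟩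
    · rw [upP_1]; omega
    · rw [upP_2]; omega
    · rw [upP_sh]
      exact (sh_lt_add hm).2 (hf.lt t ((sh_lt_add hm).1 hs))
  · intro s hs
    rcases cases_sh s with rfl | rfl | ⟨t, rfl⟩
    · rfl
    · rfl
    · rw [upP_sh, upP_sh, hf.inv t ((sh_lt_add hm).1 hs)]
  · intro s hs
    rcases cases_sh s with rfl | rfl | ⟨t, rfl⟩
    · rw [upP_1]; omega
    · rw [upP_2]; omega
    · rw [upP_sh, Ne, sh_inj]
      exact hf.ne t ((sh_lt_add hm).1 hs)
  · intro s t hs ht h1 h2 h3
    rcases cases_sh s with rfl | rfl | ⟨s', rfl⟩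
    · rw [upP_1] at h2; omega
    · rw [upP_2] at h2; omega
    · rcases cases_sh t with rfl | rfl | ⟨t', rfl⟩
      · rw [upP_1, upP_sh] at h3
        rw [upP_sh] at h2
        unfold sh at h2 h3 h1
        split_ifs at h1 h2 h3 <;> omega
      · rw [upP_2, upP_sh] at h3
        rw [upP_sh] at h2
        unfold sh at h2 h3 h1
        split_ifs at h1 h2 h3 <;> omega
      · rw [upP_sh, upP_sh, sh_lt] at h3
        rw [upP_sh, sh_lt] at h2
        rw [sh_lt] at h1
        exact hf.nc s' t' ((sh_lt_add hm).1 hs) ((sh_lt_add hm).1 ht) h1 h2 h3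

/-- shift of the gaps `≥ 2` by two (the even gaps) -/
lemma sh_gap {u v s : ℕ} :
    ((sh u ≤ sh s ∧ sh s < sh v) ∨ (sh v ≤ sh s ∧ sh s < sh u)) ↔
      ((u ≤ s ∧ s < v) ∨ (v ≤ s ∧ s < u)) := by
  unfold sh
  split_ifs <;> omega

theorem PP.jn_up {m : ℕ} {f : ℕ → ℕ} (hf : PP m f) (hm : 0 < m) {u v : ℕ} (hu : u ≤ m) (hv : v ≤ m)
    (hu2 : u % 2 = 0) (hv2 : v % 2 = 0) : Jn (upP f) (sh u) (sh v) ↔ Jn f u v := by
  have hsu : sh u ≤ m + 2 := by unfold sh; split_ifs <;> omega
  have hsv : sh v ≤ m + 2 := by unfold sh; split_ifs <;> omega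
  rw [(hf.up hm).jn_iff hsu hsv, hf.jn_iff hu hv]
  constructor
  · intro H s hs
    have := H (sh s) ((sh_lt_add hm).2 hs)
    rw [upP_sh, sh_gap, sh_gap] at this
    exact this
  · intro H s hs
    rcases cases_sh s with rfl | rfl | ⟨t, rfl⟩
    · rw [upP_1]
      have e1 : sh u ≠ 2 := sh_ne2 u
      have e2 : sh v ≠ 2 := sh_ne2 v
      omega
    · rw [upP_2]
      have e1 : sh u ≠ 2 := sh_ne2 u
      have e2 : sh v ≠ 2 := sh_ne2 v
      omega
    · rw [upP_sh, sh_gap, sh_gap]
      exact H t ((sh_lt_add hm).1 hs)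

/-- the gap `2` is isolated after `upP` -/
theorem jn_up_two {m : ℕ} {f : ℕ → ℕ} (hf : PP m f) (hm : 0 < m) {v : ℕ} (hv : v ≤ m + 2)
    (hv2 : v ≠ 2) : ¬ Jn (upP f) 2 v := by
  intro H
  have h1 := ((hf.up hm).jn_iff (by omega) hv).1 H 1 (by omega)
  rw [upP_1] at h1
  have h2 := ((hf.up hm).jn_iff (by omega) hv).1 H 2 (by omega)
  rw [upP_2] at h2
  omega

lemma Sim.up {N : ℕ} {f : ℕ → ℕ} {R : Rl} (h : Sim N f R) : Sim (N + 2) (upP f) (upR R) := by
  have hm : 0 < N + 2 := by omega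
  have hinj : ∀ x y : Option ℕ, x.map (· + 2) = y.map (· + 2) → x = y := by
    intro x y hxy
    rcases x with _ | j <;> rcases y with _ | j' <;> simp at hxy ⊢
    exact hxy
  have hcase : ∀ x, Dm (N + 2) x → x = some 1 ∨ ∃ x', Dm N x' ∧ x = x'.map (· + 2) := by
    intro x hx
    rcases x with _ | j
    · exact Or.inr ⟨none, trivial, rfl⟩
    · by_cases h1 : j = 1
      · left; rw [h1]
      · right
        refine ⟨some (j - 2), ⟨?_, ?_⟩, ?_⟩
        · have := hx.1; omega
        · have := hx.1; have := hx.2; omega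
        · have := hx.1
          simp only [Option.map_some, Option.some.injEq]
          omega
  have hgp : ∀ x' : Option ℕ, gp (x'.map (· + 2)) = sh (gp x') := by
    intro x'
    rcases x' with _ | j
    · rfl
    · show j + 2 + 1 = sh (j + 1)
      rw [sh_pos (by omega)]
  refine ⟨h.pp.up hm, fun x y hx hy => ?_⟩
  rcases hcase x hx with rfl | ⟨x', hx', rfl⟩
  · rcases hcase y hy with rfl | ⟨y', hy', rfl⟩
    · exact ⟨fun _ => jn_refl _ _, fun _ => Or.inl rfl⟩
    · constructor
      · rintro (h1 | ⟨x1, y1, h1, _⟩)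
        · rcases y' with _ | j <;> simp at h1
        · rcases x1 with _ | j <;> simp at h1
      · intro h1
        exfalso
        rw [hgp] at h1
        exact jn_up_two h.pp hm (by have := gp_le hy'; unfold sh; split_ifs <;> omega) (sh_ne2 _) h1
  · rcases hcase y hy with rfl | ⟨y', hy', rfl⟩
    · constructor
      · rintro (h1 | ⟨x1, y1, _, h1, _⟩)
        · rcases x' with _ | j <;> simp at h1
        · rcases y1 with _ | j <;> simp at h1
      · intro h1
        exfalso
        rw [hgp] at h1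
        exact jn_up_two h.pp hm (by have := gp_le hx'; unfold sh; split_ifs <;> omega) (sh_ne2 _)
          h1.symm
    · rw [hgp, hgp, h.pp.jn_up hm (by have := gp_le hx'; omega) (by have := gp_le hy'; omega)
        (gp_even hx') (gp_even hy'), ← h.rel x' y' hx' hy']
      constructor
      · rintro (h1 | ⟨x1, y1, h1, h2, h3⟩)
        · rw [hinj _ _ h1, h.rel y' y' hy' hy']
          exact jn_refl _ _
        · rwa [hinj _ _ h1, hinj _ _ h2]
      · exact fun h1 => Or.inr ⟨x', y', rfl, rfl, h1⟩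

/-! ### the cap -/

/-- `dnP` inverts `upP` on pairings with the small arc `(1, 2)` -/
lemma upP_dnP {m : ℕ} {f : ℕ → ℕ} (hf : PP (m + 2) f) (hm : 0 < m) {s : ℕ} (hs : s < m + 2) :
    upP (dnP f) s = EE 1 f s := by
  have hE := hf.step (a := 1) (by omega)
  rcases cases_sh s with rfl | rfl | ⟨t, rfl⟩
  · rw [upP_1, EE_a]
  · rw [upP_2]
    exact (EE_a1 1 f).symm
  · rw [upP_sh]
    unfold dnP
    have i := hE.inv (sh t) hs
    rw [sh_us]
    · intro e
      rw [e, EE_a] at i
      exact sh_ne2 t i.symm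
    · intro e
      rw [e] at i
      have : EE 1 f 2 = 1 := EE_a1 1 f
      rw [this] at i
      exact sh_ne1 t i.symm

lemma sh_dnP {m : ℕ} {f : ℕ → ℕ} (hf : PP (m + 2) f) (hm : 0 < m) {s : ℕ} (hs : s < m) :
    sh (dnP f s) = EE 1 f (sh s) := by
  rw [← upP_dnP hf hm ((sh_lt_add hm).2 hs), upP_sh]

theorem PP.dn {m : ℕ} {f : ℕ → ℕ} (hf : PP (m + 2) f) (hm : 0 < m) : PP m (dnP f) := by
  have hE := hf.step (a := 1) (by omega)
  have key := fun s (hs : s < m) => sh_dnP hf hm hs
  constructor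
  · intro s hs
    rw [← sh_lt_add hm, key s hs]
    exact hE.lt _ ((sh_lt_add hm).2 hs)
  · intro s hs
    have h1 : dnP f s < m := by
      rw [← sh_lt_add hm, key s hs]
      exact hE.lt _ ((sh_lt_add hm).2 hs)
    rw [← sh_inj, key _ h1, key s hs]
    exact hE.inv _ ((sh_lt_add hm).2 hs)
  · intro s hs h1
    rw [← sh_inj, key s hs] at h1
    exact hE.ne _ ((sh_lt_add hm).2 hs) h1
  · intro s t hs ht h1 h2 h3
    rw [← sh_lt, key s hs] at h2
    rw [← sh_lt, key s hs, key t ht] at h3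
    exact hE.nc _ _ ((sh_lt_add hm).2 hs) ((sh_lt_add hm).2 ht) (sh_lt.2 h1) h2 h3

lemma jn_congr {m : ℕ} {f g : ℕ → ℕ} (hf : PP m f) (hg : PP m g) (h : ∀ s < m, f s = g s) {u v : ℕ}
    (hu : u ≤ m) (hv : v ≤ m) : Jn f u v ↔ Jn g u v := by
  rw [hf.jn_iff hu hv, hg.jn_iff hu hv]
  constructor
  · intro H s hs
    rw [← h s hs]
    exact H s hs
  · intro H s hs
    rw [h s hs]
    exact H s hs

lemma Sim.dn {N : ℕ} {f : ℕ → ℕ} {R : Rl} (h : Sim (N + 2) f R) : Sim N (dnP f) (dnR R) := by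
  have hm : 0 < N + 2 := by omega
  have hgp : ∀ x' : Option ℕ, gp (x'.map (· + 2)) = sh (gp x') := by
    intro x'
    rcases x' with _ | j
    · rfl
    · show j + 2 + 1 = sh (j + 1)
      rw [sh_pos (by omega)]
  have hD : ∀ x, Dm N x → Dm (N + 2) (x.map (· + 2)) := by
    intro x hx
    rcases x with _ | j
    · trivial
    · have h1 := hx.1
      have h2 := hx.2
      exact ⟨show (j + 2) % 2 = 1 by omega, show j + 2 < N + 2 by omega⟩
  have hdn := h.pp.dn hm
  have hup := hdn.up hm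
  have hE := h.pp.step (a := 1) (by omega)
  refine ⟨hdn, fun x y hx hy => ?_⟩
  have hx1 := gp_le hx
  have hy1 := gp_le hy
  have hx2 := gp_even hx
  have hy2 := gp_even hy
  have h1 : sh (gp x) ≤ N + 2 + 2 := by unfold sh; split_ifs <;> omega
  have h2 : sh (gp y) ≤ N + 2 + 2 := by unfold sh; split_ifs <;> omega
  rw [← hdn.jn_up hm (by omega) (by omega) hx2 hy2,
    jn_congr hup hE (fun s hs => upP_dnP h.pp hm hs) h1 h2,
    h.pp.isolate (a := 1) (by omega) rfl h1 h2 (by unfold sh; split_ifs <;> omega)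
      (by unfold sh; split_ifs <;> omega), ← hgp, ← hgp]
  show R _ _ ↔ _
  rw [h.rel _ _ (hD x hx) (hD y hy), hgp, hgp]
  constructor
  · intro h3
    exact Or.inr ⟨sh_ne2 _, sh_ne2 _, h3⟩
  · rintro (h3 | ⟨_, _, h3⟩)
    · rw [h3]
      exact jn_refl _ _
    · exact h3

/-! ### sweeps -/

lemma Sim.fwd {N : ℕ} {f : ℕ → ℕ} {R : Rl} (hN : N % 2 = 0) (h : Sim (N + 2) f R) (b : ℕ → Bool) :
    ∀ k, k ≤ N → Sim (N + 2) (fwd IPr b k f) (fwd IR b k R)
  | 0, _ => h
  | k + 1, hk => (Sim.fwd hN h b k (by omega)).tl (by omega) (by omega) (by omega) _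

lemma Sim.bwd {N : ℕ} (hN : N % 2 = 0) (b : ℕ → Bool) :
    ∀ k, k ≤ N → ∀ {f : ℕ → ℕ} {R : Rl}, Sim (N + 2) f R → Sim (N + 2) (bwd IPr b k f) (bwd IR b k R)
  | 0, _, _, _, h => h
  | k + 1, hk, _, _, h => Sim.bwd hN b k (by omega) (h.tl (by omega) (by omega) (by omega) _)

lemma Sim.drow {N : ℕ} {f : ℕ → ℕ} {R : Rl} (hN : N % 2 = 0) (h : Sim N f R) (b b' : ℕ → Bool) :
    Sim N (drow IPr N b b' f) (drow IR N b b' R) :=
  (Sim.bwd hN b' N le_rfl (Sim.fwd hN h.up b N le_rfl)).dn

lemma Sim.drows {N : ℕ} {f : ℕ → ℕ} {R : Rl} (hN : N % 2 = 0) (h : Sim N f R) (b : ℕ → ℕ → Bool) :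
    ∀ M, Sim N (drows IPr N b M f) (drows IR N b M R)
  | 0 => h
  | M + 1 => (Sim.drows hN h b M).drow hN _ _

/-! ### the start -/

/-- the pattern `|()()...()|`, bent -/
def pb (s : ℕ) : ℕ := if s % 2 = 0 then s + 1 else s - 1

lemma pp_pb {m : ℕ} (hm : m % 2 = 0) : PP m pb := by
  constructor
  · intro s hs
    unfold pb
    split_ifs <;> omega
  · intro s hs
    unfold pb
    split_ifs <;> omega
  · intro s hs
    unfold pb
    split_ifs <;> omega
  · intro s t hs ht h1 h2 h3
    unfold pb at h2 h3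
    split_ifs at h2 h3 <;> omega

lemma sim_start {N : ℕ} (hN : N % 2 = 0) : Sim N pb (fun _ _ => True) := by
  refine ⟨pp_pb (by omega), fun x y hx hy => ?_⟩
  have hx2 := gp_even hx
  have hy2 := gp_even hy
  have hx1 := gp_le hx
  have hy1 := gp_le hy
  refine ⟨fun _ => ?_, fun _ => trivial⟩
  rw [(pp_pb (show (N + 2) % 2 = 0 by omega)).jn_iff (by omega) (by omega)]
  intro s hs
  unfold pb
  split_ifs <;> omega

/-- **the simulation** -/
theorem sim_rows (n : ℕ) (b : ℕ → ℕ → Bool) (M : ℕ) :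
    Sim (2 * n) (drows IPr (2 * n) b M pb) (drows IR (2 * n) b M (fun _ _ => True)) :=
  (sim_start (by omega)).drows (by omega) b M

/-! ### alive, and all top sites joined -/

/-- alive iff the lower side is joined to some odd region -/
theorem Sim.alive {N : ℕ} {f : ℕ → ℕ} {R : Rl} (hN : N % 2 = 0) (h : Sim N f R) :
    f 0 ≠ N + 1 ↔ ∃ j, j % 2 = 1 ∧ j < N ∧ R none (some j) := by
  have l0 := h.pp.lt 0 (by omega)
  have n0 := h.pp.ne 0 (by omega)
  have i0 := h.pp.inv 0 (by omega)
  constructor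
  · intro h0
    -- the strand paired with `0`
    have hc : Cl f 0 (f 0 + 1) := by
      intro s h1 h2
      refine ⟨Nat.zero_le _, ?_⟩
      by_cases hs0 : s = 0
      · rw [hs0]; omega
      by_cases hs1 : s = f 0
      · rw [hs1, i0]; omega
      have := h.pp.arc (s := 0) (by omega) (by omega) s (by omega) (by omega)
      omega
    have hev := h.pp.even (by omega) hc
    rw [Nat.even_iff] at hev
    refine ⟨f 0, by omega, by omega, ?_⟩
    rw [h.rel none (some (f 0)) trivial ⟨by omega, by omega⟩]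
    exact Or.inl ⟨Nat.zero_le _, hc⟩
  · rintro ⟨j, hj1, hj2, hj3⟩ h0
    rw [h.rel none (some j) trivial ⟨hj1, hj2⟩] at hj3
    have h1 : Cl f 0 (j + 1) := (jn_of_le (Nat.zero_le _)).1 hj3
    have := h1 0 le_rfl (by omega)
    omega

/-- all odd regions are joined to the lower side iff the pattern is `|()()...()|` -/
theorem Sim.all {N : ℕ} {f : ℕ → ℕ} {R : Rl} (hN : N % 2 = 0) (h : Sim N f R) :
    (∀ s, s < N + 2 → f s = pb s) ↔ ∀ j, j % 2 = 1 → j < N → R none (some j) := by
  constructor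
  · intro h0 j hj1 hj2
    rw [h.rel none (some j) trivial ⟨hj1, hj2⟩]
    refine (jn_of_le (Nat.zero_le _)).2 ?_
    intro s h1 h2
    rw [h0 s (by simp only [gp] at h2; omega)]
    simp only [gp] at h2 ⊢
    unfold pb
    split_ifs <;> omega
  · intro H
    have hcl : ∀ g, g % 2 = 0 → g ≤ N + 2 → Cl f 0 g := by
      intro g hg1 hg2
      by_cases hg0 : g = 0
      · rw [hg0]; exact cl_refl f 0
      by_cases hgN : g = N + 2
      · intro s h1 h2
        exact ⟨Nat.zero_le _, by rw [hgN]; exact h.pp.lt s (by omega)⟩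
      have h1 := H (g - 1) (by omega) (by omega)
      rw [h.rel none (some (g - 1)) trivial ⟨by omega, by omega⟩] at h1
      have h2 := (jn_of_le (Nat.zero_le _)).1 h1
      have e : gp (some (g - 1)) = g := by show g - 1 + 1 = g; omega
      rwa [e] at h2
    intro s hs
    -- the block of `s`
    have hcs : ∀ t, t % 2 = 0 → t + 1 < N + 2 → f t = t + 1 := by
      intro t ht ht2
      have h1 := hcl t ht (by omega)
      have h2 := hcl (t + 2) (by omega) (by omega) t (Nat.zero_le _) (by omega)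
      have h3 : t ≤ f t := by
        by_contra hcon
        have := h1 (f t) (Nat.zero_le _) (by omega)
        rw [h.pp.inv t (by omega)] at this
        omega
      have := h.pp.ne t (by omega)
      omega
    unfold pb
    split_ifs with h1
    · exact hcs s h1 (by omega)
    · have h2 := hcs (s - 1) (by omega) (by omega)
      have h3 := h.pp.inv (s - 1) (by omega)
      rw [h2, show s - 1 + 1 = s by omega] at h3
      exact h3

end H81Rect
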