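import Pool.Agent.Helper47.Perc.Glue
import Pool.Agent.Helper47.Perc.Aspect
import Pool.Agent.Helper69.RSW.Bridge

/-!
RECTANGLES with diagonal sides: `dbox a b c d = {a ≤ x + y ≤ b, c ≤ x - y ≤ d}`.
Crossings in the two directions meet; the FKG bounds of helper11's note.
-/

set_option autoImplicit false

namespace H81Rect
open Finset SimpleGraph
open H47Perc
open Pool.Agent.Helper69.RSW (P P_mono P_map P_restrict P_congr Dep Up harris P_nonneg)

open Classical in
/-- the rectangle `a ≤ x + y ≤ b`, `c ≤ x - y ≤ d` -/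
noncomputable def dbox (a b c d : ℤ) : Finset (ℤ × ℤ) :=
  (box (-(|a| + |b| + |c| + |d|)) (|a| + |b| + |c| + |d|) (-(|a| + |b| + |c| + |d|))
    (|a| + |b| + |c| + |d|)).filter
    (fun z => a ≤ z.1 + z.2 ∧ z.1 + z.2 ≤ b ∧ c ≤ z.1 - z.2 ∧ z.1 - z.2 ≤ d)

lemma mem_dbox {a b c d : ℤ} {z : ℤ × ℤ} :
    z ∈ dbox a b c d ↔ a ≤ z.1 + z.2 ∧ z.1 + z.2 ≤ b ∧ c ≤ z.1 - z.2 ∧ z.1 - z.2 ≤ d := by
  unfold dbox
  rw [mem_filter, mem_box]
  constructor
  · exact fun h => h.2
  · intro h
    refine ⟨?_, h⟩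
    have h1 := le_abs_self a
    have h2 := neg_abs_le a
    have h3 := le_abs_self b
    have h4 := neg_abs_le b
    have h5 := le_abs_self c
    have h6 := neg_abs_le c
    have h7 := le_abs_self d
    have h8 := neg_abs_le d
    omega

lemma dbox_mono {a b c d a' b' c' d' : ℤ} (ha : a' ≤ a) (hb : b ≤ b') (hc : c' ≤ c) (hd : d ≤ d') :
    dbox a b c d ⊆ dbox a' b' c' d' := by
  intro z hz
  rw [mem_dbox] at *
  omega

/-- **crossings of a diagonal rectangle meet** -/
theorem diag_cross {a b c d : ℤ} {u v l r : ℤ × ℤ} (p : lattice.Walk u v) (q : lattice.Walk l r)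
    (hp : ∀ w ∈ p.support, w ∈ dbox a b c d) (hq : ∀ w ∈ q.support, w ∈ dbox a b c d)
    (hu : u.1 + u.2 = b) (hv : v.1 + v.2 = a) (hl : l.1 - l.2 = c) (hr : r.1 - r.2 = d) :
    ∃ w, w ∈ p.support ∧ w ∈ q.support := by
  obtain ⟨u1, u2⟩ := u
  obtain ⟨v1, v2⟩ := v
  obtain ⟨l1, l2⟩ := l
  obtain ⟨r1, r2⟩ := r
  simp only at hu hv hl hr
  -- a large number
  set K : ℤ := |a| + |b| + |c| + |d| + 1 with hK
  have hK0 : 1 ≤ K := by
    have := abs_nonneg a
    have := abs_nonneg b
    have := abs_nonneg c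
    have := abs_nonneg d
    omega
  have hbox : ∀ w ∈ dbox a b c d, -K < w.1 ∧ w.1 < K ∧ -K < w.2 ∧ w.2 < K := by
    intro w hw
    rw [mem_dbox] at hw
    have h1 := le_abs_self a
    have h2 := neg_abs_le a
    have h3 := le_abs_self b
    have h4 := neg_abs_le b
    have h5 := le_abs_self c
    have h6 := neg_abs_le c
    have h7 := le_abs_self d
    have h8 := neg_abs_le d
    omega
  have hu' := hp _ p.start_mem_support
  have hv' := hp _ p.end_mem_support
  have hl' := hq _ q.start_mem_support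
  have hr' := hq _ q.end_mem_support
  have bu := hbox _ hu'
  have bv := hbox _ hv'
  have bl := hbox _ hl'
  have br := hbox _ hr'
  rw [mem_dbox] at hu' hv' hl' hr'
  simp only at hu' hv' hl' hr' bu bv bl br
  -- the rays
  obtain ⟨k1, hk1⟩ : ∃ k : ℕ, K = u2 + k := ⟨(K - u2).toNat, by omega⟩
  obtain ⟨k2, hk2⟩ : ∃ k : ℕ, v2 = -K + k := ⟨(v2 + K).toNat, by omega⟩
  obtain ⟨k3, hk3⟩ : ∃ k : ℕ, l1 = -K + k := ⟨(l1 + K).toNat, by omega⟩
  obtain ⟨k4, hk4⟩ : ∃ k : ℕ, K = r1 + k := ⟨(K - r1).toNat, by omega⟩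
  obtain ⟨up, hup⟩ := vline u1 u2 k1
  obtain ⟨dn, hdn⟩ := vline v1 (-K) k2
  obtain ⟨lf, hlf⟩ := hline (-K) l2 k3
  obtain ⟨rt, hrt⟩ := hline r1 r2 k4
  have eu : (u1, u2 + (k1 : ℤ)) = (u1, K) := by rw [hk1]
  have ev : (v1, -K + (k2 : ℤ)) = (v1, v2) := by rw [← hk2]
  have el : (-K + (k3 : ℤ), l2) = (l1, l2) := by rw [← hk3]
  have er : (r1 + (k4 : ℤ), r2) = (K, r2) := by rw [hk4]
  let p' : lattice.Walk (u1, K) (v1, -K) := ((up.copy rfl eu).reverse.append p).append (dn.copy rfl ev).reverse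
  let q' : lattice.Walk (-K, l2) (K, r2) := ((lf.copy rfl el).append q).append (rt.copy rfl er)
  have sp : ∀ w ∈ p'.support, (w.1 = u1 ∧ u2 ≤ w.2 ∧ w.2 ≤ K) ∨ w ∈ p.support ∨ (w.1 = v1 ∧ -K ≤ w.2 ∧ w.2 ≤ v2) := by
    intro w hw
    rw [Walk.mem_support_append_iff, Walk.mem_support_append_iff] at hw
    rcases hw with (h | h) | h
    · rw [Walk.support_reverse, List.mem_reverse, Walk.support_copy] at h
      have := hup w h
      left
      omega
    · exact Or.inr (Or.inl h)
    · rw [Walk.support_reverse, List.mem_reverse, Walk.support_copy] at h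
      have := hdn w h
      right; right
      omega
  have sq : ∀ w ∈ q'.support, (w.2 = l2 ∧ -K ≤ w.1 ∧ w.1 ≤ l1) ∨ w ∈ q.support ∨ (w.2 = r2 ∧ r1 ≤ w.1 ∧ w.1 ≤ K) := by
    intro w hw
    rw [Walk.mem_support_append_iff, Walk.mem_support_append_iff] at hw
    rcases hw with (h | h) | h
    · rw [Walk.support_copy] at h
      have := hlf w h
      left
      omega
    · exact Or.inr (Or.inl h)
    · rw [Walk.support_copy] at h
      have := hrt w h
      right; right
      omega
  obtain ⟨w, hw1, hw2⟩ := crossing_walks p' q' (by simp only; omega)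
    (fun w hw => by
      simp only
      rcases sq w hw with h | h | h
      · omega
      · have := hbox w (hq w h)
        omega
      · omega)
    (fun w hw => by
      simp only
      rcases sp w hw with h | h | h
      · omega
      · have := hbox w (hp w h)
        omega
      · omega)
    (fun w hw => by
      simp only
      rcases sp w hw with h | h | h
      · omega
      · have := hbox w (hp w h)
        omega
      · omega)
  obtain ⟨w1, w2⟩ := w
  -- `w` is on `q` or on a ray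
  have hqw : (w2 = l2 ∧ w1 ≤ l1) ∨ (w1, w2) ∈ q.support ∨ (w2 = r2 ∧ r1 ≤ w1) := by
    rcases sq _ hw2 with h | h | h
    · exact Or.inl ⟨h.1, h.2.2⟩
    · exact Or.inr (Or.inl h)
    · exact Or.inr (Or.inr ⟨h.1, h.2.1⟩)
  have hpw : (w1 = u1 ∧ u2 ≤ w2) ∨ (w1, w2) ∈ p.support ∨ (w1 = v1 ∧ w2 ≤ v2) := by
    rcases sp _ hw1 with h | h | h
    · exact Or.inl ⟨h.1, h.2.1⟩
    · exact Or.inr (Or.inl h)
    · exact Or.inr (Or.inr ⟨h.1, h.2.2⟩)
  -- `w ∈ p.support`
  have hP : (w1, w2) ∈ p.support := by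
    rcases hpw with h | h | h
    · -- the upper ray
      have hw : w2 = u2 := by
        rcases hqw with h' | h' | h'
        · omega
        · have := hq _ h'
          rw [mem_dbox] at this
          simp only at this
          omega
        · omega
      rw [h.1, hw]
      exact p.start_mem_support
    · exact h
    · have hw : w2 = v2 := by
        rcases hqw with h' | h' | h'
        · omega
        · have := hq _ h'
          rw [mem_dbox] at this
          simp only at this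
          omega
        · omega
      rw [h.1, hw]
      exact p.end_mem_support
  refine ⟨(w1, w2), hP, ?_⟩
  have hD := hp _ hP
  rw [mem_dbox] at hD
  simp only at hD
  rcases hqw with h | h | h
  · have : w1 = l1 := by omega
    rw [h.1, this]
    exact q.start_mem_support
  · exact h
  · have : w1 = r1 := by omega
    rw [h.1, this]
    exact q.end_mem_support

/-- the same for `Joined` -/
theorem joined_cross {a b c d : ℤ} {ω : Finset (Sym2 (ℤ × ℤ))} (hω : ω ⊆ edgesIn (dbox a b c d))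
    {u v l r : ℤ × ℤ} (hu : u ∈ dbox a b c d) (hl : l ∈ dbox a b c d) (hub : u.1 + u.2 = b)
    (hva : v.1 + v.2 = a) (hlc : l.1 - l.2 = c) (hrd : r.1 - r.2 = d) (h1 : Joined ω u v)
    (h2 : Joined ω l r) : Joined ω u l := by
  classical
  obtain ⟨p, hp1, hp2⟩ := joined_walk_in hω hu h1
  obtain ⟨q, hq1, hq2⟩ := joined_walk_in hω hl h2
  obtain ⟨w, hw1, hw2⟩ := diag_cross p q hp2 hq2 hub hva hlc hrd
  refine joined_trans (walk_joined (p.takeUntil w hw1)
    (fun e he => hp1 e (p.edges_takeUntil_subset_edges hw1 he))) ?_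
  exact joined_symm (walk_joined (q.takeUntil w hw2)
    (fun e he => hq1 e (q.edges_takeUntil_subset_edges hw2 he)))

/-! ### the events -/

/-- every top vertex is joined to the bottom side -/
def AllTop (a b c d : ℤ) (ω : Finset (Sym2 (ℤ × ℤ))) : Prop :=
  ∀ u ∈ dbox a b c d, u.1 + u.2 = b → ∃ v : ℤ × ℤ, v.1 + v.2 = a ∧ Joined ω u v

/-- some top vertex is joined to the bottom side -/
def Cross (a b c d : ℤ) (ω : Finset (Sym2 (ℤ × ℤ))) : Prop :=
  ∃ u ∈ dbox a b c d, u.1 + u.2 = b ∧ ∃ v : ℤ × ℤ, v.1 + v.2 = a ∧ Joined ω u v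

/-- the side `x - y = c` is joined to the side `x - y = d` -/
def CrossLR (a b c d : ℤ) (ω : Finset (Sym2 (ℤ × ℤ))) : Prop :=
  ∃ l ∈ dbox a b c d, l.1 - l.2 = c ∧ ∃ r : ℤ × ℤ, r.1 - r.2 = d ∧ Joined ω l r

/-- all top vertices are joined to each other -/
def TopJoined (a b c d : ℤ) (ω : Finset (Sym2 (ℤ × ℤ))) : Prop :=
  ∀ u ∈ dbox a b c d, u.1 + u.2 = b → ∀ v ∈ dbox a b c d, v.1 + v.2 = b → Joined ω u v

lemma allTop_up (a b c d : ℤ) : Up (AllTop a b c d) := by
  intro ω ω' h h1 u hu hub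
  obtain ⟨v, hv, hj⟩ := h1 u hu hub
  exact ⟨v, hv, joined_mono h hj⟩

lemma cross_up (a b c d : ℤ) : Up (Cross a b c d) := by
  rintro ω ω' h ⟨u, hu, hub, v, hv, hj⟩
  exact ⟨u, hu, hub, v, hv, joined_mono h hj⟩

lemma crossLR_up (a b c d : ℤ) : Up (CrossLR a b c d) := by
  rintro ω ω' h ⟨u, hu, hub, v, hv, hj⟩
  exact ⟨u, hu, hub, v, hv, joined_mono h hj⟩

lemma topJoined_up (a b c d : ℤ) : Up (TopJoined a b c d) := by
  intro ω ω' h h1 u hu hub v hv hvb
  exact joined_mono h (h1 u hu hub v hv hvb)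

lemma topJoined_of {a b c d : ℤ} {ω : Finset (Sym2 (ℤ × ℤ))} (hω : ω ⊆ edgesIn (dbox a b c d))
    (h1 : AllTop a b c d ω) (h2 : CrossLR a b c d ω) : TopJoined a b c d ω := by
  obtain ⟨l, hl, hlc, r, hr, hj⟩ := h2
  intro u hu hub v hv hvb
  obtain ⟨u', hu', ju⟩ := h1 u hu hub
  obtain ⟨v', hv', jv⟩ := h1 v hv hvb
  exact joined_trans (joined_cross hω hu hl hub hu' hlc hr ju hj)
    (joined_symm (joined_cross hω hv hl hvb hv' hlc hr jv hj))

/-- the probabilities, at `p = 1/2` -/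
noncomputable def pAll (a b c d : ℤ) : ℝ := perc half (dbox a b c d) (AllTop a b c d)
noncomputable def pCross (a b c d : ℤ) : ℝ := perc half (dbox a b c d) (Cross a b c d)
noncomputable def pLRd (a b c d : ℤ) : ℝ := perc half (dbox a b c d) (CrossLR a b c d)
noncomputable def pTop (a b c d : ℤ) : ℝ := perc half (dbox a b c d) (TopJoined a b c d)

/-- **FKG I** -/
theorem fkg_top (a b c d : ℤ) : pAll a b c d * pLRd a b c d ≤ pTop a b c d := by
  unfold pAll pLRd pTop
  refine (perc_harris _ (allTop_up a b c d) (crossLR_up a b c d)).trans ?_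
  apply perc_half_mono
  rintro ω hω ⟨h1, h2⟩
  exact topJoined_of hω h1 h2

/-- **FKG II**: `a' ≤ a`: the rectangle with more rows below -/
theorem fkg_all {a a' b c d : ℤ} (h : a' ≤ a) (hab : a ≤ b) :
    pTop a b c d * pCross a' b c d ≤ pAll a' b c d := by
  have hsub : dbox a b c d ⊆ dbox a' b c d := dbox_mono h le_rfl le_rfl le_rfl
  unfold pTop pCross pAll
  have e : perc half (dbox a b c d) (TopJoined a b c d) =
      perc half (dbox a' b c d) (fun ω => TopJoined a b c d (ω ∩ edgesIn (dbox a b c d))) :=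
    (perc_restrict hsub _).symm
  rw [e]
  have hup : Up (fun ω : Finset (Sym2 (ℤ × ℤ)) => TopJoined a b c d (ω ∩ edgesIn (dbox a b c d))) := by
    intro ω ω' h h1
    exact topJoined_up a b c d _ _ (inter_subset_inter_right h) h1
  refine (perc_harris _ hup (cross_up a' b c d)).trans ?_
  apply perc_half_mono
  rintro ω hω ⟨h1, u, hu, hub, v, hv, hj⟩ w hw hwb
  refine ⟨v, hv, ?_⟩
  -- the vertices of the top row are in the smaller rectangle
  have hu2 : u ∈ dbox a b c d := by
    rw [mem_dbox] at hu ⊢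
    omega
  have hw2 : w ∈ dbox a b c d := by
    rw [mem_dbox] at hw ⊢
    omega
  exact joined_trans (joined_mono inter_subset_left (h1 w hw2 hwb u hu2 hub)) hj

end H81Rect
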