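import Mathlib

/-!
RECTANGLES: from the positive spectral measure to an absolutely convergent spectral sum.

`p M = ∑ μ k d k ^ M` with `μ ≥ 0`, `Q M = ∑ γ k μ k d k ^ M` with `|γ k| ≤ γ k0`, `k0` the dominant level.
If `u Q M' ≤ p M'` for all large `M'`, then `γ k0 ≤ 1/u`, so `∑ |γ k μ k| |d k| ^ M ≤ (1/u) ∑ μ k |d k| ^ M`.
-/

set_option autoImplicit false

namespace H81Rect
open Finset Filter Topology

variable {ι : Type*} [Fintype ι]

/-- the dominant term of a spectral sum -/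
theorem dominant {a d : ι → ℝ} {k0 : ι} (h0 : 0 < d k0) (hdom : ∀ k, k ≠ k0 → |d k| < d k0) :
    Tendsto (fun M : ℕ => (∑ k, a k * d k ^ M) / d k0 ^ M) atTop (𝓝 (a k0)) := by
  classical
  have h1 : ∀ k ∈ (univ : Finset ι), Tendsto (fun M : ℕ => a k * (d k / d k0) ^ M) atTop
      (𝓝 (if k = k0 then a k0 else 0)) := by
    intro k _
    by_cases hk : k = k0
    · subst hk
      rw [if_pos rfl, div_self h0.ne']
      simp
    · rw [if_neg hk]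
      have h2 : |d k / d k0| < 1 := by
        rw [abs_div, abs_of_pos h0, div_lt_one h0]
        exact hdom k hk
      have := (tendsto_pow_atTop_nhds_zero_of_abs_lt_one h2).const_mul (a k)
      simpa using this
  have h3 := tendsto_finsetSum (univ : Finset ι) h1
  rw [Finset.sum_ite_eq' univ k0 (fun _ => a k0), if_pos (mem_univ _)] at h3
  refine h3.congr fun M => ?_
  rw [Finset.sum_div]
  refine Finset.sum_congr rfl fun k _ => ?_
  rw [div_pow]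
  ring

/-- the ratio `Q / p` tends to `γ k0`, so `u Q ≤ p` gives `u γ k0 ≤ 1` -/
theorem gamma_le {μ γ d : ι → ℝ} {k0 : ι} (h0 : 0 < d k0) (hdom : ∀ k, k ≠ k0 → |d k| < d k0)
    (hμ0 : 0 < μ k0) {u : ℝ}
    (hpq : ∀ᶠ M : ℕ in atTop, u * ∑ k, γ k * μ k * d k ^ M ≤ ∑ k, μ k * d k ^ M) : u * γ k0 ≤ 1 := by
  have h1 := (dominant (a := fun k => γ k * μ k) h0 hdom).const_mul u
  have h2 := dominant (a := μ) h0 hdom
  have h3 : u * (γ k0 * μ k0) ≤ μ k0 := by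
    refine le_of_tendsto_of_tendsto h1 h2 ?_
    filter_upwards [hpq] with M hM
    rw [← mul_div_assoc]
    exact div_le_div_of_nonneg_right hM (pow_pos h0 M).le
  have h4 : (u * γ k0) * μ k0 ≤ 1 * μ k0 := by
    rw [one_mul, mul_assoc]
    exact h3
  exact le_of_mul_le_mul_right h4 hμ0

/-- **the absolute spectral sum** -/
theorem abs_sum_le {μ γ d : ι → ℝ} {k0 : ι} (h0 : 0 < d k0) (hdom : ∀ k, k ≠ k0 → |d k| < d k0)
    (hμ : ∀ k, 0 ≤ μ k) (hμ0 : 0 < μ k0) (hγ : ∀ k, |γ k| ≤ γ k0) {u : ℝ} (hu : 0 < u)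
    (hpq : ∀ᶠ M : ℕ in atTop, u * ∑ k, γ k * μ k * d k ^ M ≤ ∑ k, μ k * d k ^ M) (M : ℕ) :
    ∑ k, |γ k * μ k| * |d k| ^ M ≤ (∑ k, μ k * |d k| ^ M) / u := by
  have h1 := gamma_le h0 hdom hμ0 hpq
  rw [le_div_iff₀ hu, Finset.sum_mul]
  refine Finset.sum_le_sum fun k _ => ?_
  have h2 : |γ k * μ k| * u ≤ μ k := by
    rw [abs_mul, abs_of_nonneg (hμ k)]
    have h3 : |γ k| * u ≤ 1 := by
      calc |γ k| * u ≤ γ k0 * u := mul_le_mul_of_nonneg_right (hγ k) hu.le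
        _ = u * γ k0 := mul_comm _ _
        _ ≤ 1 := h1
    calc |γ k| * μ k * u = (|γ k| * u) * μ k := by ring
      _ ≤ 1 * μ k := mul_le_mul_of_nonneg_right h3 (hμ k)
      _ = μ k := one_mul _
  calc |γ k * μ k| * |d k| ^ M * u = (|γ k * μ k| * u) * |d k| ^ M := by ring
    _ ≤ μ k * |d k| ^ M := mul_le_mul_of_nonneg_right h2 (by positivity)

/-- with `u = p M · P`, nonnegative levels: `∑ |γ k μ k| |d k| ^ M ≤ 1 / P` -/
theorem abs_sum_le_inv {μ γ d : ι → ℝ} {k0 : ι} (h0 : 0 < d k0) (hdom : ∀ k, k ≠ k0 → |d k| < d k0)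
    (hμ : ∀ k, 0 ≤ μ k) (hμ0 : 0 < μ k0) (hγ : ∀ k, |γ k| ≤ γ k0) {M : ℕ} {u p : ℝ}
    (hM : ∀ k, 0 ≤ d k ^ M) (hp : 0 < p)
    (hup : (∑ k, μ k * d k ^ M) * p ≤ u)
    (hpq : ∀ᶠ M' : ℕ in atTop, u * ∑ k, γ k * μ k * d k ^ M' ≤ ∑ k, μ k * d k ^ M') :
    ∑ k, |γ k * μ k| * |d k| ^ M ≤ 1 / p := by
  have hpos : 0 < ∑ k, μ k * d k ^ M := by
    refine Finset.sum_pos' (fun k _ => mul_nonneg (hμ k) (hM k)) ⟨k0, mem_univ _, ?_⟩
    exact mul_pos hμ0 (pow_pos h0 M)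
  have hu : 0 < u := lt_of_lt_of_le (mul_pos hpos hp) hup
  have h1 := abs_sum_le h0 hdom hμ hμ0 hγ hu hpq M
  have h2 : ∑ k, μ k * |d k| ^ M = ∑ k, μ k * d k ^ M := by
    refine Finset.sum_congr rfl fun k _ => ?_
    rw [← abs_pow, abs_of_nonneg (hM k)]
  rw [h2] at h1
  refine h1.trans ?_
  rw [div_le_div_iff₀ hu hp, one_mul]
  exact hup

end H81Rect
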